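import Pool.Agent.U594.CC.Op

set_option autoImplicit false

/-!
# Convex-cyclic operators whose square is not convex-cyclic, on every separable Banach space
-/

open Set Topology

universe u

namespace Pool.Agent.Results.MP_8292e8_an.EverySeparableSpace

open Pool.Agent.U594.CC

/-- Every nonzero separable Banach space, real or complex, carries a bounded linear operator `S` which
is convex-cyclic (the convex hull of some orbit is dense) such that `S ^ 2` is not convex-cyclic. -/
theorem result :
    (∀ (X : Type u) [NormedAddCommGroup X] [NormedSpace ℝ X] [CompleteSpace X]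
      [TopologicalSpace.SeparableSpace X] [Nontrivial X],
      ∃ S : X →L[ℝ] X, ConvexCyclic S ∧ ¬ ConvexCyclic (S ^ 2 : X →L[ℝ] X)) ∧
    (∀ (X : Type u) [NormedAddCommGroup X] [NormedSpace ℂ X] [CompleteSpace X]
      [TopologicalSpace.SeparableSpace X] [Nontrivial X],
      ∃ S : X →L[ℂ] X, ConvexCyclic S ∧ ¬ ConvexCyclic (S ^ 2 : X →L[ℂ] X)) :=
  ⟨fun X _ _ _ _ _ => real_case X, fun X _ _ _ _ _ => complex_case X⟩

end Pool.Agent.Results.MP_8292e8_an.EverySeparableSpace
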